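import Mathlib

namespace Pool.Agent.Results.MP_a52033_al.Ex

variable {F A : Type} [Field F] [AddCommGroup A] [Module F A]

/-- The associator of the bilinear product `m`. -/
def asc (m : A →ₗ[F] A →ₗ[F] A) (x y z : A) : A := m (m x y) z - m x (m y z)

/-- The commutator. -/
def br (m : A →ₗ[F] A →ₗ[F] A) (x y : A) : A := m x y - m y x

def Malcev (m : A →ₗ[F] A →ₗ[F] A) : Prop :=
  (∀ x, br m x x = 0) ∧ ∀ x y z, br m (br m x y) (br m x z) =
    br m (br m (br m x y) z) x + br m (br m (br m y z) x) x + br m (br m (br m z x) x) y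

def Simple (m : A →ₗ[F] A →ₗ[F] A) : Prop :=
  (∃ x y, m x y ≠ 0) ∧
    ∀ I : Submodule F A, (∀ x ∈ I, ∀ y, m x y ∈ I ∧ m y x ∈ I) → I = ⊥ ∨ I = ⊤

abbrev K := GaloisField 2 2

lemma t2 : (2 : K) = 0 := by exact_mod_cast CharP.cast_eq_zero K 2

lemma sm (c : ZMod 2) : c = 0 ∨ c = 1 := by revert c; decide

noncomputable def mu : K × K →ₗ[ZMod 2] K × K →ₗ[ZMod 2] K × K :=
  LinearMap.mk₂ (ZMod 2) (fun x y => (x.1 * y.1 + x.2 * y.2 ^ 2, x.1 * y.2 + x.2 * y.1))
    (fun x y z => by ext <;> simp <;> ring)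
    (fun c x y => by rcases sm c with rfl | rfl <;> simp)
    (fun x y z => by
      ext
      · simp; linear_combination x.2 * y.2 * z.2 * t2
      · simp; ring)
    (fun c x y => by rcases sm c with rfl | rfl <;> simp)

lemma mu_def (x y : K × K) : mu x y = (x.1 * y.1 + x.2 * y.2 ^ 2, x.1 * y.2 + x.2 * y.1) := rfl

lemma ex : ∃ w : K, w ^ 2 ≠ w := by
  by_contra h
  push Not at h
  have h1 : (Set.univ : Set K) ⊆ {0, 1} := fun w _ => by
    rcases mul_eq_zero.1 (show w * (w - 1) = 0 by linear_combination h w) with h | h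
    exacts [.inl h, .inr (sub_eq_zero.1 h)]
  have := (Set.ncard_le_ncard h1).trans (Set.ncard_insert_le _ _)
  rw [Set.ncard_univ, GaloisField.card 2 2 (by norm_num)] at this
  simp at this

theorem result : ∃ (F A : Type) (_ : Field F) (_ : AddCommGroup A) (_ : Module F A)
    (m : A →ₗ[F] A →ₗ[F] A), Simple m ∧ (∀ x y, asc m x y y = 0) ∧
      ¬ ((∀ x y, asc m x x y = 0) ∧ ∀ x y, asc m x y y = 0) ∧ Malcev m := by
  obtain ⟨w, hw⟩ := ex
  refine ⟨ZMod 2, K × K, inferInstance, inferInstance, inferInstance, mu, ⟨⟨(1, 0), (1, 0), ?_⟩,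
    fun I hI => ?_⟩, fun x y => ?_, fun h => hw ?_, fun x => sub_self _, fun x y z => ?_⟩
  · simp [mu_def]
  · refine or_iff_not_imp_left.2 fun h => eq_top_iff.2 ?_
    obtain ⟨⟨f, g⟩, hx, h0⟩ := I.ne_bot_iff.1 h
    have k : ∀ a f g : K, (f, g) ∈ I → (a * f, a * g) ∈ I := fun a f g h => by
      simpa [mu_def] using (hI _ h (a, 0)).2
    have k1 : ∀ g : K, g ≠ 0 → (g, (0 : K)) ∈ I → ⊤ ≤ I := by
      rintro g hg h ⟨a, b⟩ -
      have h1 : ((1 : K), (0 : K)) ∈ I := by simpa [hg] using k g⁻¹ _ _ h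
      simpa [mu_def] using (hI _ h1 (a, b)).1
    by_cases hg : g = 0
    · exact k1 f (fun hf => h0 (by simp [hf, hg])) (hg ▸ hx)
    · refine k1 (g * (w ^ 2 - w)) (mul_ne_zero hg (sub_ne_zero.2 hw)) ?_
      convert I.sub_mem (hI _ hx (0, w)).1 (k w _ _ (hI _ hx (0, 1)).1) using 1
      ext <;> simp [mu_def] <;> ring
  · ext
    · simp only [asc, mu_def, Prod.fst_sub, Prod.fst_zero]
      linear_combination (x.2 * y.1 * y.2 ^ 2 - 2 * x.2 * y.1 ^ 2 * y.2 ^ 2) * t2
    · simp only [asc, mu_def, Prod.snd_sub, Prod.snd_zero]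
      ring
  · have := congrArg Prod.snd (h.1 (0, 1) (0, w))
    simp only [asc, mu_def, Prod.snd_sub, Prod.snd_zero] at this
    linear_combination -this
  · have k : ∀ x y : K × K, (br mu x y).2 = 0 := fun x y => by
      simp only [br, mu_def, Prod.snd_sub]; ring
    have k1 : ∀ x y : K × K, x.2 = 0 → br mu x y = 0 := fun x y h => by
      ext <;> simp [br, mu_def, h, mul_comm]
    simp only [k1 _ _ (k _ _), k1 0 _ rfl, add_zero]

end Pool.Agent.Results.MP_a52033_al.Ex
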